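import Pool.Agent.H2.EA.Stm

set_option autoImplicit false

open Finset Module H2.EA

namespace H75.EA

/-- twist of a representation by a linear character -/
noncomputable def tw {G V : Type} [Group G] [AddCommGroup V] [Module ℂ V] (τ : G →* ℂˣ)
    (ρ : Representation ℂ G V) : Representation ℂ G V where
  toFun g := ((τ g : ℂˣ) : ℂ) • ρ g
  map_one' := by simp
  map_mul' x y := by
    rw [map_mul, map_mul, Units.val_mul, smul_mul_smul_comm]

theorem tw_apply {G V : Type} [Group G] [AddCommGroup V] [Module ℂ V] (τ : G →* ℂˣ)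
    (ρ : Representation ℂ G V) (g : G) (v : V) : tw τ ρ g v = ((τ g : ℂˣ) : ℂ) • ρ g v := rfl

/-- irreducibility spelled out -/
theorem irr_iff {G V : Type} [Group G] [AddCommGroup V] [Module ℂ V]
    (ρ : Representation ℂ G V) : ρ.IsIrreducible ↔
      Nontrivial V ∧ ∀ W : Submodule ℂ V, (∀ g : G, ∀ v ∈ W, ρ g v ∈ W) → W = ⊥ ∨ W = ⊤ := by
  constructor
  · intro h
    refine ⟨?_, ?_⟩
    · by_contra hV
      rw [not_nontrivial_iff_subsingleton] at hV
      have h1 : (⊥ : Subrepresentation ρ) ≠ ⊤ := bot_ne_top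
      apply h1
      apply Subrepresentation.toSubmodule_injective
      exact Subsingleton.elim _ _
    · intro W hW
      rcases eq_bot_or_eq_top (⟨W, fun g v hv => hW g v hv⟩ : Subrepresentation ρ) with h1 | h1
      · left
        exact congrArg Subrepresentation.toSubmodule h1
      · right
        exact congrArg Subrepresentation.toSubmodule h1
  · rintro ⟨hV, h⟩
    have hnt : Nontrivial (Subrepresentation ρ) := by
      refine ⟨⟨⊥, ⊤, fun h1 => ?_⟩⟩
      have h2 : (⊥ : Submodule ℂ V) = ⊤ := congrArg Subrepresentation.toSubmodule h1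
      exact bot_ne_top h2
    refine ⟨fun W => ?_⟩
    rcases h W.toSubmodule (fun g v hv => W.apply_mem_toSubmodule g hv) with h1 | h1
    · left
      exact Subrepresentation.toSubmodule_injective h1
    · right
      exact Subrepresentation.toSubmodule_injective h1

theorem tw_irr {G V : Type} [Group G] [AddCommGroup V] [Module ℂ V] (τ : G →* ℂˣ)
    (ρ : Representation ℂ G V) (h : ρ.IsIrreducible) : (tw τ ρ).IsIrreducible := by
  rw [irr_iff] at h ⊢
  refine ⟨h.1, fun W hW => h.2 W fun g v hv => ?_⟩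
  have h1 := hW g v hv
  rw [tw_apply] at h1
  exact (Submodule.smul_mem_iff W (Units.ne_zero _)).mp h1

theorem bsq_eq (hrta : S_RTA) (hrtb : S_RTB) {p : ℕ} [Fact p.Prime] {G A : Type} [Group G]
    [Finite G] [AddCommGroup A] [Module (ZMod p) A] (D : Dat p G A) (V : Type) [AddCommGroup V]
    [Module ℂ V] [FiniteDimensional ℂ V] (ρ : Representation ℂ G V) (hρ : ρ.IsIrreducible)
    (v : A →ₗ[ZMod p] ZMod p) (hv : eig D ρ v ≠ ⊥) : D.bsq v = finrank ℂ V ^ 2 := by
  have h1 := hrta p G A D V ρ hρ v hv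
  have h2 := hrtb p G A D V ρ hρ v hv
  unfold Dat.bsq Dat.bsqK
  rw [← h2, h1, mul_pow]
  congr 2
  unfold Dat.stabK
  rw [inf_top_eq, Subgroup.relIndex_top_right]

theorem t_FIN (hcore : S_CORE) (hrta : S_RTA) (hrtb : S_RTB) (hrx : S_RX) (hry : S_RY)
    (hdat : S_DAT) (htw : S_TW) : S_FIN := by
  intro p hp G _ _ hG hel hab e hex hmax he g hg
  have : Fact p.Prime := ⟨hp⟩
  obtain ⟨V0, _, _, _, ρ0, hρ0, hd0⟩ := hex
  by_cases hgc : g ∈ commutator G
  · obtain ⟨A, _, _, D, hD⟩ := hdat p G hel hab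
    have hga : g ∈ Set.range D.ι := by rw [hD]; exact hgc
    obtain ⟨a, rfl⟩ := hga
    by_contra hne
    have ha : a ≠ 0 := by
      rintro rfl
      exact hne D.ι_zero
    obtain ⟨v0, hv0⟩ := hry p G A D V0 ρ0 hρ0
    have hb0 := bsq_eq hrta hrtb D V0 ρ0 hρ0 v0 hv0
    obtain ⟨v, hva, hv⟩ := hcore p G A D hG e he v0
      (by rw [hb0, hd0, ← pow_mul, mul_comm]) a ha
    obtain ⟨V, _, _, _, ρ, hρ, hvρ⟩ := hrx p G A D v
    have hb := bsq_eq hrta hrtb D V ρ hρ v hvρ
    have hge : p ^ e ≤ finrank ℂ V := by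
      rw [hb, mul_comm 2 e, pow_mul] at hv
      exact (Nat.pow_le_pow_iff_left two_ne_zero).mp hv
    have heq : finrank ℂ V = p ^ e := le_antisymm (hmax V ρ hρ) hge
    have h1 := hg V ρ hρ heq
    obtain ⟨w, hw, hw0⟩ := Submodule.exists_mem_ne_zero_of_ne_bot hvρ
    have h2 : ρ (D.ι a) w = (ZMod.stdAddChar (N := p) (v a) : ℂ) • w := hw a
    rw [h1, Module.End.one_apply] at h2
    have h3 : ((ZMod.stdAddChar (N := p) (v a) : ℂ) - 1) • w = 0 := by
      rw [sub_smul, one_smul, ← h2, sub_self]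
    rcases smul_eq_zero.mp h3 with h4 | h4
    · rw [sub_eq_zero] at h4
      apply hva
      have h5 : ZMod.stdAddChar (N := p) (v a) = ZMod.stdAddChar (N := p) 0 := by
        rw [h4, AddChar.map_zero_eq_one]
      exact ZMod.injective_stdAddChar h5
    · exact hw0 h4
  · exfalso
    obtain ⟨τ, hτ⟩ := htw G g hgc
    have h1 := hg V0 (tw τ ρ0) (tw_irr τ ρ0 hρ0) hd0
    have h2 := hg V0 ρ0 hρ0 hd0
    obtain ⟨hnt, -⟩ := (irr_iff ρ0).mp hρ0
    obtain ⟨w, hw⟩ := exists_ne (0 : V0)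
    have h3 : tw τ ρ0 g w = w := by rw [h1]; rfl
    rw [tw_apply, h2, Module.End.one_apply] at h3
    have h4 : (((τ g : ℂˣ) : ℂ) - 1) • w = 0 := by
      rw [sub_smul, one_smul, h3, sub_self]
    rcases smul_eq_zero.mp h4 with h5 | h5
    · apply hτ
      apply Units.ext
      rw [sub_eq_zero] at h5
      exact h5
    · exact hw h5

end H75.EA
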